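import Mathlib

namespace Pool.Agent.Results.MP_fefad7_co.CWClient

open Finset

/-- A clause is a finite set of literals; the literal `(i, b)` is true iff `x_i = b`. -/
abbrev Clause (n : ℕ) := Finset (Fin n × Bool)

/-- The board: all clauses with `k` literals on pairwise distinct variables. -/
def board (n k : ℕ) : Finset (Clause n) :=
  univ.filter fun c => c.card = k ∧ ∀ l ∈ c, ∀ m ∈ c, l.1 = m.1 → l = m

/-- The conjunction of the clauses is satisfiable. -/
def Sat {n : ℕ} (F : Finset (Clause n)) : Prop :=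
  ∃ a : Fin n → Bool, ∀ c ∈ F, ∃ l ∈ c, a l.1 = l.2

/-- Client wins the `(1:q)` Client-Waiter game from the position `(U, F)`; `pick T` is his
answer to the offer `T`. -/
inductive ClientWins {n : ℕ} (q : ℕ) : Finset (Clause n) → Finset (Clause n) → Prop
  | done (F) : ¬ Sat F → ClientWins q ∅ F
  | step (U F) (pick : Finset (Clause n) → Clause n) : U.Nonempty →
      (∀ T ⊆ U, 1 ≤ T.card → T.card ≤ q + 1 → pick T ∈ T) →
      (∀ T ⊆ U, 1 ≤ T.card → T.card ≤ q + 1 → ClientWins q (U \ T) (insert (pick T) F)) →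
      ClientWins q U F

variable {n : ℕ}

def bad (a : Fin n → Bool) (U : Finset (Clause n)) : Finset (Clause n) :=
  U.filter fun c => ∀ l ∈ c, a l.1 ≠ l.2

noncomputable def phi (q : ℕ) (U F : Finset (Clause n)) : ℝ :=
  ∑ a : Fin n → Bool, if bad a F = ∅ then ((q : ℝ) / (q + 1)) ^ (bad a U).card else 0

lemma bern (q j t : ℕ) (ht : t ≤ q + 1) (hj : j ≤ t) :
    ((t : ℝ) - j) ≤ t * ((q : ℝ) / (q + 1)) ^ j := by
  have hq : (0 : ℝ) < q + 1 := by positivity
  have h1 : (1 : ℝ) + j * (-(1 / (q + 1))) ≤ (1 + -(1 / ((q : ℝ) + 1))) ^ j := by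
    apply one_add_mul_le_pow
    have : 1 / ((q : ℝ) + 1) ≤ 1 := by rw [div_le_one hq]; linarith [Nat.cast_nonneg (α := ℝ) q]
    linarith
  have h2 : (1 + -(1 / ((q : ℝ) + 1))) = q / (q + 1) := by field_simp; ring
  rw [h2] at h1
  have ht' : (t : ℝ) ≤ q + 1 := by exact_mod_cast ht
  have h3 : (t : ℝ) * (j * (1 / (q + 1))) ≤ j := by
    have : (t : ℝ) * (1 / (q + 1)) ≤ 1 := by rw [mul_one_div, div_le_one hq]; exact ht'
    nlinarith [Nat.cast_nonneg (α := ℝ) j]
  have := mul_le_mul_of_nonneg_left h1 (Nat.cast_nonneg (α := ℝ) t)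
  nlinarith

lemma phi_step (q : ℕ) (U F T : Finset (Clause n)) (hT : T ⊆ U) (h1 : 1 ≤ T.card)
    (h2 : T.card ≤ q + 1) : ∃ c ∈ T, phi q (U \ T) (insert c F) ≤ phi q U F := by
  have hne : T.Nonempty := card_pos.1 h1
  apply exists_le_of_sum_le hne
  simp only [phi]
  rw [sum_comm, sum_comm (s := T)]
  apply sum_le_sum
  intro a _
  by_cases hF : bad a F = ∅
  · have e1 : ∀ c ∈ T, (if bad a (insert c F) = ∅ then
        ((q : ℝ) / (q + 1)) ^ (bad a (U \ T)).card else 0) =
        if c ∈ bad a T then 0 else ((q : ℝ) / (q + 1)) ^ (bad a (U \ T)).card := by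
      intro c hc
      by_cases hb : ∀ l ∈ c, a l.1 ≠ l.2
      · have : c ∈ bad a T := mem_filter.2 ⟨hc, hb⟩
        have h' : bad a (insert c F) ≠ ∅ :=
          ne_empty_of_mem (a := c) (mem_filter.2 ⟨mem_insert_self _ _, hb⟩)
        rw [if_neg h', if_pos this]
      · have : c ∉ bad a T := fun h => hb (mem_filter.1 h).2
        have h' : bad a (insert c F) = ∅ := by
          rw [bad, filter_insert, if_neg hb]; exact hF
        rw [if_pos h', if_neg this]
    rw [sum_congr rfl e1, if_pos hF, sum_ite, sum_const_zero, zero_add, sum_const, sum_const,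
      nsmul_eq_mul, nsmul_eq_mul]
    have hs : bad a T ⊆ T := filter_subset _ _
    have e2 : (T.filter fun c => c ∉ bad a T).card = T.card - (bad a T).card := by
      rw [← card_sdiff_of_subset hs, sdiff_eq_filter]
    have e3 : (bad a U).card = (bad a T).card + (bad a (U \ T)).card := by
      rw [← card_union_of_disjoint]
      · congr 1
        rw [bad, bad, bad, ← filter_union, union_sdiff_of_subset hT]
      · exact disjoint_filter_filter disjoint_sdiff
    rw [e2, e3, Nat.cast_sub (card_le_card hs), pow_add, ← mul_assoc]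
    exact mul_le_mul_of_nonneg_right (bern q _ _ h2 (card_le_card hs)) (by positivity)
  · rw [if_neg hF]
    apply le_of_eq
    apply sum_congr rfl
    intro c _
    rw [if_neg]
    intro h
    apply hF
    exact subset_empty.1 (h ▸ filter_subset_filter _ (subset_insert _ _))

lemma client (q : ℕ) (U : Finset (Clause n)) : ∀ F, phi q U F < 1 → ClientWins q U F := by
  induction U using Finset.strongInduction with
  | H U ih =>
    intro F hF
    rcases U.eq_empty_or_nonempty with rfl | hne
    · apply ClientWins.done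
      rintro ⟨a, ha⟩
      have hb : bad a F = ∅ := by
        rw [bad, filter_eq_empty_iff]
        intro c hc h
        obtain ⟨l, hl, e⟩ := ha c hc
        exact h l hl e
      have := single_le_sum (f := fun a : Fin n → Bool => if bad a F = ∅ then
        ((q : ℝ) / (q + 1)) ^ (bad a (∅ : Finset (Clause n))).card else 0)
        (fun b _ => by split_ifs <;> positivity) (mem_univ a)
      simp only [hb, if_true] at this
      have e : (bad a (∅ : Finset (Clause n))).card = 0 := by simp [bad]
      rw [e, pow_zero] at this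
      exact absurd hF (not_lt.2 this)
    · have key : ∀ T : Finset (Clause n), ∃ c, T ⊆ U → 1 ≤ T.card → T.card ≤ q + 1 →
          c ∈ T ∧ phi q (U \ T) (insert c F) ≤ phi q U F := by
        intro T
        by_cases h : T ⊆ U ∧ 1 ≤ T.card ∧ T.card ≤ q + 1
        · obtain ⟨c, hc, h'⟩ := phi_step q U F T h.1 h.2.1 h.2.2
          exact ⟨c, fun _ _ _ => ⟨hc, h'⟩⟩
        · exact ⟨∅, fun a b c => absurd ⟨a, b, c⟩ h⟩
      choose pick hp using key
      refine ClientWins.step U F pick hne (fun T a b c => (hp T a b c).1) fun T a b c => ?_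
      exact ih _ (sdiff_ssubset a (card_pos.1 b)) _ ((hp T a b c).2.trans_lt hF)

lemma bad_board (k : ℕ) (a : Fin n → Bool) : n.choose k ≤ (bad a (board n k)).card := by
  have : n.choose k = (powersetCard k (univ : Finset (Fin n))).card := by simp
  rw [this]
  have hi : Function.Injective fun j : Fin n => (j, !a j) := fun _ _ e => (Prod.ext_iff.1 e).1
  apply card_le_card_of_injOn (fun S => S.image fun j => (j, !a j))
  · intro S hS
    have hS' := (mem_powersetCard.1 (mem_coe.1 hS)).2
    simp only [bad, board, coe_filter, mem_filter, mem_univ, true_and, Set.mem_ofPred_eq]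
    refine ⟨⟨by rw [card_image_of_injective _ hi, hS'], ?_⟩, ?_⟩
    · intro l hl m hm e
      obtain ⟨x, _, rfl⟩ := mem_image.1 hl
      obtain ⟨y, _, rfl⟩ := mem_image.1 hm
      simp only at e
      rw [e]
    · intro l hl
      obtain ⟨x, _, rfl⟩ := mem_image.1 hl
      simp
  · intro S _ T _ e
    exact image_injective hi e

theorem result (n k q : ℕ) (hn : k ≤ n) (h : ((q : ℝ) + 1) * n * Real.log 2 ≤ n.choose k) :
    ClientWins q (board n k) ∅ := by
  apply client
  have hq : (0 : ℝ) < q + 1 := by positivity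
  have r0 : (0 : ℝ) ≤ q / (q + 1) := by positivity
  have r1 : (q : ℝ) / (q + 1) ≤ 1 := by rw [div_le_one hq]; linarith
  have r2 : (q : ℝ) / (q + 1) < Real.exp (-(1 / (q + 1))) := by
    have := Real.one_sub_lt_exp_neg (x := 1 / ((q : ℝ) + 1)) (by positivity)
    have e : 1 - 1 / ((q : ℝ) + 1) = q / (q + 1) := by field_simp; ring
    rwa [e] at this
  have hC : n.choose k ≠ 0 := (Nat.choose_pos hn).ne'
  have r3 : ((q : ℝ) / (q + 1)) ^ n.choose k < 1 / 2 ^ n := by
    refine (pow_lt_pow_left₀ r2 r0 hC).trans_le ?_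
    rw [← Real.exp_nat_mul]
    have e : (1 : ℝ) / 2 ^ n = Real.exp (-(n * Real.log 2)) := by
      rw [Real.exp_neg, Real.exp_nat_mul, Real.exp_log (by norm_num), one_div]
    rw [e, Real.exp_le_exp, mul_neg, neg_le_neg_iff, mul_one_div, le_div_iff₀ hq]
    linarith
  have r4 : phi q (board n k) ∅ ≤ ∑ _a : Fin n → Bool, ((q : ℝ) / (q + 1)) ^ n.choose k := by
    apply sum_le_sum
    intro a _
    rw [if_pos (by simp [bad])]
    exact pow_le_pow_of_le_one r0 r1 (bad_board k a)
  refine r4.trans_lt ?_
  rw [sum_const, nsmul_eq_mul]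
  simp only [card_univ, Fintype.card_fun, Fintype.card_bool, Fintype.card_fin, Nat.cast_pow,
    Nat.cast_ofNat]
  rwa [lt_div_iff₀ (by positivity), mul_comm] at r3

end Pool.Agent.Results.MP_fefad7_co.CWClient
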