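import Mathlib

namespace Pool.Agent.Results.MP_fefad7_co.CWWaiter

open Finset

/-- A clause is a finite set of literals; the literal `(i, b)` is true iff `x_i = b`. -/
abbrev Clause (n : ℕ) := Finset (Fin n × Bool)

/-- The board: all clauses with `k` literals on pairwise distinct variables. -/
def board (n k : ℕ) : Finset (Clause n) :=
  univ.filter fun c => c.card = k ∧ ∀ l ∈ c, ∀ m ∈ c, l.1 = m.1 → l = m

/-- The conjunction of the clauses is satisfiable. -/
def Sat {n : ℕ} (F : Finset (Clause n)) : Prop :=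
  ∃ a : Fin n → Bool, ∀ c ∈ F, ∃ l ∈ c, a l.1 = l.2

/-- Waiter wins the `(1:q)` Client-Waiter game from the position with unclaimed clauses `U`
and Client's clauses `F`. -/
inductive WaiterWins {n : ℕ} (q : ℕ) : Finset (Clause n) → Finset (Clause n) → Prop
  | done (F) : Sat F → WaiterWins q ∅ F
  | step (U F T) : T ⊆ U → 1 ≤ T.card → T.card ≤ q + 1 →
      (∀ c ∈ T, WaiterWins q (U \ T) (insert c F)) → WaiterWins q U F

variable {n : ℕ}

lemma finish (q : ℕ) (a : Fin n → Bool) (U : Finset (Clause n)) :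
    ∀ F, (∀ c ∈ U, ∃ l ∈ c, a l.1 = l.2) → (∀ c ∈ F, ∃ l ∈ c, a l.1 = l.2) →
      WaiterWins q U F := by
  induction U using Finset.induction_on with
  | empty => exact fun F _ h => .done F ⟨a, h⟩
  | insert c U hc ih =>
    intro F h1 h2
    refine .step _ F {c} (by simp) (by simp) (by simp) fun d hd => ?_
    rw [mem_singleton] at hd
    subst hd
    rw [insert_sdiff_of_mem _ (mem_singleton_self _), sdiff_singleton_eq_erase,
      erase_eq_of_notMem hc]
    refine ih _ (fun e he => h1 e (mem_insert_of_mem he)) fun e he => ?_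
    rcases mem_insert.1 he with rfl | he
    · exact h1 _ (mem_insert_self _ _)
    · exact h2 e he

lemma crit_card (k : ℕ) (a : Fin n → Bool) (i : Fin n) (T : Finset (Clause n))
    (hT : T ⊆ board n k) (h1 : ∀ c ∈ T, ∃ b, (i, b) ∈ c)
    (h2 : ∀ c ∈ T, ∀ l ∈ c, l.1 ≠ i → a l.1 ≠ l.2) : T.card ≤ 2 * (n - 1).choose (k - 1) := by
  have e : 2 * (n - 1).choose (k - 1) =
      ((univ : Finset Bool) ×ˢ powersetCard (k - 1) (univ.erase i)).card := by
    simp [card_erase_of_mem]
  rw [e]
  refine le_trans (card_le_card ?_) (card_image_le (f := fun p : Bool × Finset (Fin n) =>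
    insert (i, p.1) (p.2.image fun j => (j, !a j))))
  intro c hc
  obtain ⟨b, hb⟩ := h1 c hc
  obtain ⟨hk, hinj⟩ := (mem_filter.1 (hT hc)).2
  refine mem_image.2 ⟨(b, (c.image Prod.fst).erase i), ?_, ?_⟩
  · refine mem_product.2 ⟨mem_univ _, mem_powersetCard.2 ⟨erase_subset_erase _ (subset_univ _), ?_⟩⟩
    rw [card_erase_of_mem (mem_image.2 ⟨_, hb, rfl⟩),
      card_image_of_injOn (fun l hl m hm e => hinj l hl m hm e), hk]
  · ext ⟨j, d⟩
    simp only [mem_insert, mem_image, mem_erase, Prod.mk.injEq]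
    constructor
    · rintro (⟨rfl, rfl⟩ | ⟨x, ⟨hx, ⟨y, z⟩, hy, rfl⟩, rfl, rfl⟩)
      · exact hb
      · have := h2 c hc _ hy hx
        simp only at this ⊢
        have e : (!a y) = z := by cases z <;> cases h : a y <;> simp_all
        rw [e]; exact hy
    · intro h
      by_cases hj : j = i
      · subst hj
        exact Or.inl ⟨rfl, (Prod.ext_iff.1 (hinj _ h _ hb rfl)).2⟩
      · refine Or.inr ⟨j, ⟨hj, _, h, rfl⟩, rfl, ?_⟩
        have := h2 c hc _ h hj
        simp only at this
        cases d <;> cases h : a j <;> simp_all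

lemma waiter (k q : ℕ) (hq : 2 * (n - 1).choose (k - 1) ≤ q + 1) (m : ℕ) :
    ∀ (i : ℕ) (a : Fin n → Bool) (U F : Finset (Clause n)), i + m = n → U ⊆ board n k →
      (∀ c ∈ U, ∃ l ∈ c, i ≤ l.1.1 ∨ a l.1 = l.2) →
      (∀ c ∈ F, ∃ l ∈ c, l.1.1 < i ∧ a l.1 = l.2) → WaiterWins q U F := by
  induction m with
  | zero =>
    intro i a U F hi _ h1 h2
    refine finish q a U F (fun c hc => ?_) fun c hc => ?_
    · obtain ⟨l, hl, h | h⟩ := h1 c hc
      · have := l.1.2; omega
      · exact ⟨l, hl, h⟩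
    · obtain ⟨l, hl, h⟩ := h2 c hc
      exact ⟨l, hl, h.2⟩
  | succ m ih =>
    intro i a U F hi hU h1 h2
    have hin : i < n := by omega
    let v : Fin n := ⟨i, hin⟩
    let T := U.filter fun c => ∀ l ∈ c, l.1 ≠ v → l.1.1 < i ∧ a l.1 ≠ l.2
    have hT1 : ∀ c ∈ T, ∃ b, (v, b) ∈ c := by
      intro c hc
      obtain ⟨hc1, hc2⟩ := mem_filter.1 hc
      obtain ⟨l, hl, h⟩ := h1 c hc1
      by_cases e : l.1 = v
      · exact ⟨l.2, by rw [← e]; exact hl⟩
      · have := hc2 l hl e
        rcases h with h | h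
        · omega
        · exact absurd h this.2
    have hA : ∀ b, ∀ c ∈ U \ T, ∃ l ∈ c, i + 1 ≤ l.1.1 ∨ Function.update a v b l.1 = l.2 := by
      intro b c hc
      obtain ⟨hc1, hc2⟩ := mem_sdiff.1 hc
      by_contra hcon
      push Not at hcon
      refine hc2 (mem_filter.2 ⟨hc1, fun l hl e => ?_⟩)
      have := hcon l hl
      rw [Function.update_of_ne e] at this
      refine ⟨?_, this.2⟩
      have e' : l.1.1 ≠ i := fun h => e (Fin.ext h)
      omega
    have hB : ∀ b, ∀ c ∈ F, ∃ l ∈ c, l.1.1 < i + 1 ∧ Function.update a v b l.1 = l.2 := by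
      intro b c hc
      obtain ⟨l, hl, h⟩ := h2 c hc
      have e : l.1 ≠ v := fun e => by have := congrArg Fin.val e; simp only [v] at this; omega
      exact ⟨l, hl, by omega, by rw [Function.update_of_ne e]; exact h.2⟩
    rcases T.eq_empty_or_nonempty with he | hne
    · have := hA true
      rw [he, sdiff_empty] at this
      exact ih (i + 1) _ U F (by omega) hU this (hB true)
    · refine .step U F T (filter_subset _ _) (card_pos.2 hne) ?_ fun c hc => ?_
      · exact (crit_card k a v T ((filter_subset _ _).trans hU) hT1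
          (fun c hc l hl e => ((mem_filter.1 hc).2 l hl e).2)).trans hq
      · obtain ⟨b, hb⟩ := hT1 c hc
        refine ih (i + 1) (Function.update a v b) _ _ (by omega) (sdiff_subset.trans hU) (hA b)
          fun d hd => ?_
        rcases mem_insert.1 hd with rfl | hd
        · exact ⟨_, hb, by simp [v], by simp⟩
        · exact hB b d hd

theorem result (n k q : ℕ) (hk : 1 ≤ k) (hn : k ≤ n)
    (h : 2 * k * n.choose k ≤ (q + 1) * n) : WaiterWins q (board n k) ∅ := by
  obtain ⟨k, rfl⟩ : ∃ j, k = j + 1 := ⟨k - 1, by omega⟩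
  obtain ⟨n, rfl⟩ : ∃ j, n = j + 1 := ⟨n - 1, by omega⟩
  have e := Nat.add_one_mul_choose_eq n k
  refine waiter (k + 1) q ?_ (n + 1) 0 (fun _ => true) _ _ (by omega) Subset.rfl ?_ (by simp)
  · simp only [Nat.add_sub_cancel]
    apply Nat.le_of_mul_le_mul_right (c := n + 1) _ (by omega)
    nlinarith
  · intro c hc
    obtain ⟨hk', _⟩ := (mem_filter.1 hc).2
    obtain ⟨l, hl⟩ : c.Nonempty := card_pos.1 (by omega)
    exact ⟨l, hl, Or.inl (Nat.zero_le _)⟩

end Pool.Agent.Results.MP_fefad7_co.CWWaiter
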