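import Mathlib

namespace Pool.Agent.Results.MP_fefad7_co.WaiterClient

open Finset

/-- A clause is a finite set of literals; the literal `(i, b)` is true iff `x_i = b`. -/
abbrev Clause (n : ℕ) := Finset (Fin n × Bool)

/-- The board: all clauses with `k` literals on pairwise distinct variables. -/
def board (n k : ℕ) : Finset (Clause n) :=
  univ.filter fun c => c.card = k ∧ ∀ l ∈ c, ∀ m ∈ c, l.1 = m.1 → l = m

/-- The conjunction of the clauses is satisfiable. -/
def Sat {n : ℕ} (F : Finset (Clause n)) : Prop :=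
  ∃ a : Fin n → Bool, ∀ c ∈ F, ∃ l ∈ c, a l.1 = l.2

/-- Client wins the `(1:q)` Waiter-Client game from the position with unclaimed clauses `U`
and Client's clauses `F`; `pick T` is his answer to the offer `T`. -/
inductive ClientWins {n : ℕ} (q : ℕ) : Finset (Clause n) → Finset (Clause n) → Prop
  | done (U F) : U.card < q + 1 → Sat F → ClientWins q U F
  | step (U F) (pick : Finset (Clause n) → Clause n) : q + 1 ≤ U.card →
      (∀ T ⊆ U, T.card = q + 1 → pick T ∈ T) →
      (∀ T ⊆ U, T.card = q + 1 → ClientWins q (U \ T) (insert (pick T) F)) →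
      ClientWins q U F

variable {n : ℕ}

noncomputable def term (q : ℕ) (A U F : Finset (Clause n)) : ℝ :=
  if A ⊆ U ∪ F then (1 / ((q : ℝ) + 1)) ^ (A \ F).card else 0

lemma term_nonneg (q : ℕ) (A U F : Finset (Clause n)) : 0 ≤ term q A U F := by
  unfold term; split_ifs <;> positivity

lemma term_step (q : ℕ) (A U F T : Finset (Clause n)) (hT : T ⊆ U) (h : T.card = q + 1) :
    ∑ c ∈ T, term q A (U \ T) (insert c F) ≤ ∑ _c ∈ T, term q A U F := by
  have hq : (0 : ℝ) < q + 1 := by positivity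
  by_cases hA : A ⊆ U ∪ F
  · by_cases hJ : ∃ x ∈ T, x ∈ A \ F
    · obtain ⟨x, hx, hxA⟩ := hJ
      rw [sum_eq_single_of_mem x hx, sum_const, h, nsmul_eq_mul]
      · unfold term
        rw [if_pos hA]
        have e : (A \ F).card = (A \ insert x F).card + 1 := by
          rw [sdiff_insert, card_erase_add_one hxA]
        rw [e, pow_succ]
        push_cast
        split_ifs
        · apply le_of_eq; field_simp
        · positivity
      · intro c _ hc
        unfold term
        rw [if_neg]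
        intro h'
        have := h' (mem_sdiff.1 hxA).1
        simp only [mem_union, mem_sdiff, mem_insert] at this
        rcases this with h1 | h1 | h1
        · exact h1.2 hx
        · exact hc h1.symm
        · exact (mem_sdiff.1 hxA).2 h1
    · apply sum_le_sum
      intro c hc
      have e : A \ insert c F = A \ F := by
        rw [sdiff_insert, erase_eq_of_notMem fun h' => hJ ⟨c, hc, h'⟩]
      unfold term
      rw [if_pos hA, e]
      split_ifs
      · exact le_rfl
      · positivity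
  · apply sum_le_sum
    intro c hc
    unfold term
    rw [if_neg hA, if_neg]
    intro h'
    refine hA (h'.trans (union_subset (sdiff_subset.trans subset_union_left) ?_))
    exact insert_subset (mem_union_left _ (hT hc)) subset_union_right

lemma avoid {ι : Type} (q : ℕ) (X : Finset (Clause n)) (I : Finset ι)
    (A : ι → Finset (Clause n)) (hs : ∀ F ⊆ X, (∀ i ∈ I, ¬ A i ⊆ F) → Sat F)
    (U : Finset (Clause n)) : ∀ F, U ⊆ X → F ⊆ X → ∑ i ∈ I, term q (A i) U F < 1 →
      ClientWins q U F := by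
  induction U using Finset.strongInduction with
  | H U ih =>
    intro F hU hF h
    rcases lt_or_ge U.card (q + 1) with hc | hc
    · refine .done U F hc (hs F hF fun i hi hA => ?_)
      have := single_le_sum (f := fun i => term q (A i) U F) (fun i _ => term_nonneg _ _ _ _) hi
      have e : term q (A i) U F = 1 := by
        unfold term
        rw [if_pos (hA.trans subset_union_right), sdiff_eq_empty_iff_subset.2 hA]; simp
      simp only [e] at this
      linarith
    · have key : ∀ T : Finset (Clause n), ∃ c, T ⊆ U → T.card = q + 1 →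
          c ∈ T ∧ ∑ i ∈ I, term q (A i) (U \ T) (insert c F) ≤ ∑ i ∈ I, term q (A i) U F := by
        intro T
        by_cases h' : T ⊆ U ∧ T.card = q + 1
        · have hne : T.Nonempty := card_pos.1 (by omega)
          obtain ⟨c, hc, h2⟩ := exists_le_of_sum_le
            (f := fun c => ∑ i ∈ I, term q (A i) (U \ T) (insert c F))
            (g := fun _ => ∑ i ∈ I, term q (A i) U F) hne (by
              rw [sum_comm, sum_comm (s := T)]
              exact sum_le_sum fun i _ => term_step q _ U F T h'.1 h'.2)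
          exact ⟨c, fun _ _ => ⟨hc, h2⟩⟩
        · exact ⟨∅, fun a b => absurd ⟨a, b⟩ h'⟩
      choose pick hp using key
      refine .step U F pick hc (fun T a b => (hp T a b).1) fun T a b => ?_
      exact ih _ (sdiff_ssubset a (card_pos.1 (by omega))) _ (sdiff_subset.trans hU)
        (insert_subset (hU (a (hp T a b).1)) hF) ((hp T a b).2.trans_lt h)

def G (k : ℕ) (M : Finset (Fin n)) : Finset (Clause n) :=
  (board n k).filter fun c => (∀ l ∈ c, l.2 = true → l.1 ∈ M) ∧
    2 ≤ (c.filter fun l => l.1 ∈ M).card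

lemma G_mono (k : ℕ) {M M' : Finset (Fin n)} (h : M ⊆ M') : G k M ⊆ G k M' := by
  intro c hc
  obtain ⟨h1, h2, h3⟩ := mem_filter.1 hc
  refine mem_filter.2 ⟨h1, fun l hl e => h (h2 l hl e), h3.trans (card_le_card ?_)⟩
  intro l hl
  exact mem_filter.2 ⟨(mem_filter.1 hl).1, h (mem_filter.1 hl).2⟩

lemma G_card (k : ℕ) (M : Finset (Fin n)) :
    (G k M).card ≤ (2 * M.card).choose 2 * (n + M.card).choose (k - 2) := by
  let L : Finset (Fin n × Bool) := univ ×ˢ {false} ∪ M ×ˢ {true}
  have hL : L.card ≤ n + M.card := (card_union_le _ _).trans (by simp)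
  have h1 : G k M ⊆ (powersetCard 2 (M ×ˢ (univ : Finset Bool)) ×ˢ powersetCard (k - 2) L).image
      fun p => p.1 ∪ p.2 := by
    intro c hc
    obtain ⟨h1, h2, h3⟩ := mem_filter.1 hc
    obtain ⟨D, hD, hD2⟩ := exists_subset_card_eq h3
    have hDc : D ⊆ c := hD.trans (filter_subset _ _)
    refine mem_image.2 ⟨(D, c \ D), mem_product.2 ⟨mem_powersetCard.2 ⟨?_, hD2⟩,
      mem_powersetCard.2 ⟨?_, ?_⟩⟩, union_sdiff_of_subset hDc⟩
    · intro l hl
      exact mem_product.2 ⟨(mem_filter.1 (hD hl)).2, mem_univ _⟩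
    · rintro ⟨j, b⟩ hl
      have := h2 _ (mem_sdiff.1 hl).1
      cases b <;> simp_all [L]
    · simp only
      rw [card_sdiff_of_subset hDc, hD2, (mem_filter.1 h1).2.1]
  refine (card_le_card h1).trans (card_image_le.trans ?_)
  rw [card_product, card_powersetCard, card_powersetCard, card_product]
  simp only [card_univ, Fintype.card_bool]
  rw [mul_comm M.card]
  exact Nat.mul_le_mul_left _ (Nat.choose_le_choose _ hL)

def sz (s m : ℕ) : ℕ := if m = 2 * s then s else m + 1

lemma det (k s : ℕ) (hk : 2 ≤ k) (hs : 2 * s ≤ n) (F : Finset (Clause n)) (hF : F ⊆ board n k)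
    (h : ∀ M : Finset (Fin n), M.card ≤ 2 * s → (F ∩ G k M).card < sz s M.card) : Sat F := by
  obtain ⟨W, hW, hmax⟩ := exists_max_image ((univ : Finset (Finset (Fin n))).filter
    fun W => W.card ≤ 2 * s ∧ W.card ≤ 2 * (F ∩ G k W).card) card ⟨∅, by simp⟩
  obtain ⟨hW1, hW2⟩ := (mem_filter.1 hW).2
  have h1 : W.card + 2 ≤ 2 * s := by
    by_contra hc
    obtain ⟨M, hM1, -, hM3⟩ := exists_subsuperset_card_eq (subset_univ W) hW1 (by simpa using hs)
    have a1 := h M hM3.le
    have a2 : (F ∩ G k W).card ≤ (F ∩ G k M).card :=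
      card_le_card (inter_subset_inter_left (G_mono k hM1))
    rw [sz, if_pos hM3] at a1
    omega
  have h2 : ∀ c ∈ F, (∀ l ∈ c, l.2 = true → l.1 ∈ W) → c ∈ G k W := by
    intro c hc hp
    by_contra hn
    obtain ⟨D, hD, hD2⟩ := exists_subset_card_eq (s := c) (n := 2)
      (by rw [(mem_filter.1 (hF hc)).2.1]; exact hk)
    have a1 : c ∈ G k (W ∪ D.image Prod.fst) := by
      refine mem_filter.2 ⟨hF hc, fun l hl e => mem_union_left _ (hp l hl e), ?_⟩
      rw [← hD2]
      exact card_le_card fun l hl =>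
        mem_filter.2 ⟨hD hl, mem_union_right _ (mem_image_of_mem _ hl)⟩
    have a2 : (W ∪ D.image Prod.fst).card ≤ W.card + 2 :=
      (card_union_le _ _).trans (by have := card_image_le (s := D) (f := Prod.fst); omega)
    have a3 : (F ∩ G k W).card < (F ∩ G k (W ∪ D.image Prod.fst)).card := by
      apply card_lt_card
      refine ⟨inter_subset_inter_left (G_mono k subset_union_left), fun h' => hn ?_⟩
      exact (mem_inter.1 (h' (mem_inter.2 ⟨hc, a1⟩))).2
    have a4 := hmax (W ∪ D.image Prod.fst) (mem_filter.2 ⟨mem_univ _, by omega, by omega⟩)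
    have a5 := eq_of_subset_of_card_le (subset_union_left (s₁ := W) (s₂ := D.image Prod.fst)) a4
    rw [← a5] at a1
    exact hn a1
  let t : {c // c ∈ F ∩ G k W} → Finset (Fin n) := fun c => c.1.image Prod.fst ∩ W
  obtain ⟨f, hf, hft⟩ := (all_card_le_biUnion_card_iff_exists_injective t).1 (by
    intro S
    have b1 : S.biUnion t ⊆ W := biUnion_subset.2 fun c _ => inter_subset_right
    have b2 := card_le_card b1
    have b3 := h (S.biUnion t) (by omega)
    rw [sz, if_neg (by omega)] at b3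
    have b4 : S.card ≤ (F ∩ G k (S.biUnion t)).card := by
      apply card_le_card_of_injOn (fun c => c.1) _ (fun _ _ _ _ e => Subtype.ext e)
      intro c hc
      obtain ⟨c1, c2⟩ := mem_inter.1 c.2
      obtain ⟨c3, c4, c5⟩ := mem_filter.1 c2
      have c6 : ∀ l ∈ c.1, l.1 ∈ W → l.1 ∈ S.biUnion t := fun l hl hw =>
        mem_biUnion.2 ⟨c, mem_coe.1 hc, mem_inter.2 ⟨mem_image_of_mem _ hl, hw⟩⟩
      refine mem_coe.2 (mem_inter.2 ⟨c1, mem_filter.2 ⟨c3, fun l hl e => c6 l hl (c4 l hl e),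
        c5.trans (card_le_card fun l hl => ?_)⟩⟩)
      exact mem_filter.2 ⟨(mem_filter.1 hl).1, c6 l (mem_filter.1 hl).1 (mem_filter.1 hl).2⟩
    omega)
  have hb : ∀ c : {c // c ∈ F ∩ G k W}, ∃ b, (f c, b) ∈ c.1 := by
    intro c
    obtain ⟨l, hl, e⟩ := mem_image.1 (mem_inter.1 (hft c)).1
    exact ⟨l.2, by rw [← e]; exact hl⟩
  choose b hb using hb
  refine ⟨Function.extend f b fun _ => true, fun c hc => ?_⟩
  by_cases hp : ∀ l ∈ c, l.2 = true → l.1 ∈ W
  · exact ⟨_, hb ⟨c, mem_inter.2 ⟨hc, h2 c hc hp⟩⟩, hf.extend_apply _ _ _⟩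
  · push Not at hp
    obtain ⟨l, hl, e, hw⟩ := hp
    refine ⟨l, hl, ?_⟩
    rw [Function.extend_apply', e]
    rintro ⟨d, hd⟩
    exact hw (hd ▸ (mem_inter.1 (hft d)).2)

lemma chb (N a : ℕ) (ha : 0 < a) (x : ℝ) (hx : N ≤ x) : (N.choose a : ℝ) ≤ (3 * x / a) ^ a := by
  have h1 : (N.choose a : ℝ) ≤ (N : ℝ) ^ a / a.factorial := Nat.choose_le_pow_div a N
  have h2 := Real.pow_div_factorial_le_exp (a : ℝ) (by positivity) a
  have h3 : Real.exp a ≤ 3 ^ a := by
    rw [← Real.exp_one_pow]
    exact pow_le_pow_left₀ (by positivity) (by linarith [Real.exp_one_lt_d9]) a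
  have ha' : (0 : ℝ) < a := by exact_mod_cast ha
  have h4 : (N : ℝ) ^ a ≤ x ^ a := pow_le_pow_left₀ (by positivity) hx a
  have h5 : (1 : ℝ) / a.factorial ≤ 3 ^ a / (a : ℝ) ^ a := by
    rw [le_div_iff₀ (by positivity), one_div_mul_eq_div]
    exact h2.trans h3
  have hx0 : 0 ≤ x := le_trans (by positivity) hx
  calc (N.choose a : ℝ) ≤ (N : ℝ) ^ a * (1 / a.factorial) := by rw [mul_one_div]; exact h1
    _ ≤ x ^ a * (3 ^ a / (a : ℝ) ^ a) := by gcongr
    _ = _ := by rw [div_pow, mul_pow]; ring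

lemma num (n s m N : ℕ) (B r : ℝ) (hB : 0 ≤ B) (hr : 0 ≤ r) (hs : 1 ≤ s) (hn : 2 * s ≤ n)
    (hm : m ≤ 2 * s) (hN : (N : ℝ) ≤ 2 * m ^ 2 * B) (h : 216 * n ^ 2 * (B * r) ≤ s) :
    (n.choose m : ℝ) * (N.choose (sz s m) * r ^ sz s m) ≤
      (if m = 2 * s then 1 / 4 else 0) + 1 / 4 * (1 / 2) ^ m := by
  have hs' : (1 : ℝ) ≤ s := by exact_mod_cast hs
  have hn' : (2 : ℝ) * s ≤ n := by exact_mod_cast hn
  have hβ : 0 ≤ B * r := by positivity
  unfold sz
  split_ifs with e
  · subst e
    have a1 := chb n (2 * s) (by omega) n le_rfl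
    have a2 := chb N s (by omega) _ hN
    have a3 : (3 * (n : ℝ) / ((2 * s : ℕ) : ℝ)) ^ (2 * s) *
        ((3 * (2 * ((2 * s : ℕ) : ℝ) ^ 2 * B) / s) ^ s * r ^ s) =
        (54 * n ^ 2 * (B * r) / s) ^ s := by
      rw [pow_mul, ← mul_pow, ← mul_pow]
      congr 1
      push_cast
      field_simp
      ring
    have a4 : (54 * n ^ 2 * (B * r) / s) ^ s ≤ (1 / 4 : ℝ) ^ s := by
      apply pow_le_pow_left₀ (by positivity)
      rw [div_le_iff₀ (by linarith)]; linarith
    have a5 : (1 / 4 : ℝ) ^ s ≤ 1 / 4 := pow_le_of_le_one (by norm_num) (by norm_num) (by omega)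
    calc _ ≤ (3 * (n : ℝ) / ((2 * s : ℕ) : ℝ)) ^ (2 * s) *
        ((3 * (2 * ((2 * s : ℕ) : ℝ) ^ 2 * B) / s) ^ s * r ^ s) := by gcongr
      _ ≤ 1 / 4 := by rw [a3]; exact a4.trans a5
      _ ≤ _ := le_add_of_nonneg_right (by positivity)
  · rcases Nat.eq_zero_or_pos m with rfl | hm0
    · have : N = 0 := by
        have : (N : ℝ) ≤ 0 := by simpa using hN
        exact_mod_cast le_antisymm this (by positivity)
      subst this
      simp
    · have hm' : (0 : ℝ) < m := by exact_mod_cast hm0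
      have hm2 : (m : ℝ) ≤ n := by exact_mod_cast hm.trans hn
      have a1 := chb n m hm0 n le_rfl
      have a2 := chb N (m + 1) (by omega) _ hN
      have a2' : (3 * (2 * (m : ℝ) ^ 2 * B) / ((m + 1 : ℕ) : ℝ)) ≤ 6 * m * B := by
        rw [div_le_iff₀ (by positivity)]
        push_cast
        nlinarith [mul_nonneg hm'.le hB]
      have a2'' : (N.choose (m + 1) : ℝ) ≤ (6 * m * B) ^ (m + 1) :=
        a2.trans (pow_le_pow_left₀ (by positivity) a2' _)
      have a3 : (3 * (n : ℝ) / m) ^ m * ((6 * m * B) ^ (m + 1) * r ^ (m + 1)) =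
          (18 * n * (B * r)) ^ m * (6 * m * (B * r)) := by
        have : (18 * n * (B * r)) = (3 * (n : ℝ) / m) * (6 * m * B * r) := by field_simp; ring
        rw [this, ← mul_pow, mul_pow (3 * (n : ℝ) / m), pow_succ]
        ring
      have hn0 : (0 : ℝ) < n := by linarith
      have a4 : n * (B * r) ≤ 1 / 216 := by
        have : n * (n * (B * r)) ≤ n * (1 / 216) := by nlinarith
        exact le_of_mul_le_mul_left this hn0
      have a5 : (18 * n * (B * r)) ^ m ≤ (1 / 2 : ℝ) ^ m :=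
        pow_le_pow_left₀ (by positivity) (by linarith) m
      have a6 : 6 * m * (B * r) ≤ 1 / 4 := by nlinarith
      calc _ ≤ (3 * (n : ℝ) / m) ^ m * ((6 * m * B) ^ (m + 1) * r ^ (m + 1)) := by gcongr
        _ ≤ (1 / 2) ^ m * (1 / 4) := by rw [a3]; gcongr
        _ = _ := by ring

lemma main (k q s : ℕ) (hk : 2 ≤ k) (hs : 1 ≤ s) (hn : 2 * s ≤ n)
    (h : 216 * (n : ℝ) ^ 2 * (n + 2 * s).choose (k - 2) ≤ s * (q + 1)) :
    ClientWins q (board n k) ∅ := by
  have hq : (0 : ℝ) < q + 1 := by positivity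
  let P := (univ : Finset (Fin n)).powerset.filter fun M => M.card ≤ 2 * s
  refine avoid q (board n k) (P.sigma fun M => powersetCard (sz s M.card) (G k M))
    (fun p => p.2) (fun F hF hA => det k s hk hn F hF fun M hM => ?_) _ _ Subset.rfl
    (empty_subset _) ?_
  · by_contra hc
    obtain ⟨D, hD, hD2⟩ := exists_subset_card_eq (not_lt.1 hc)
    exact hA ⟨M, D⟩ (mem_sigma.2 ⟨mem_filter.2 ⟨by simp, hM⟩,
      mem_powersetCard.2 ⟨hD.trans inter_subset_right, hD2⟩⟩) (hD.trans inter_subset_left)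
  · let g : ℕ → ℝ := fun m => if m ≤ 2 * s then
      (((2 * m).choose 2 * (n + 2 * s).choose (k - 2)).choose (sz s m) : ℝ) *
        (1 / ((q : ℝ) + 1)) ^ sz s m else 0
    have b1 : ∑ p ∈ P.sigma fun M => powersetCard (sz s M.card) (G k M),
        term q p.2 (board n k) ∅ ≤ ∑ M ∈ (univ : Finset (Fin n)).powerset, g M.card := by
      rw [sum_sigma, sum_filter]
      apply sum_le_sum
      intro M _
      simp only [g]
      split_ifs with hM
      · have : ∀ D ∈ powersetCard (sz s M.card) (G k M),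
            term q D (board n k) ∅ ≤ (1 / ((q : ℝ) + 1)) ^ sz s M.card := by
          intro D hD
          unfold term
          split_ifs
          · rw [sdiff_empty, (mem_powersetCard.1 hD).2]
          · positivity
        refine (sum_le_sum this).trans ?_
        rw [sum_const, nsmul_eq_mul, card_powersetCard]
        gcongr
        exact (G_card k M).trans (Nat.mul_le_mul_left _ (Nat.choose_le_choose _ (by omega)))
      · exact le_rfl
    refine b1.trans_lt ?_
    rw [sum_powerset_apply_card]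
    have b2 : ∀ m ∈ range ((univ : Finset (Fin n)).card + 1),
        (univ : Finset (Fin n)).card.choose m • g m ≤
          (if m = 2 * s then 1 / 4 else 0) + 1 / 4 * (1 / 2 : ℝ) ^ m := by
      intro m _
      simp only [g, card_univ, Fintype.card_fin, nsmul_eq_mul]
      by_cases hm : m ≤ 2 * s
      · rw [if_pos hm]
        refine num n s m _ ((n + 2 * s).choose (k - 2)) _ (by positivity) (by positivity) hs hn hm
          ?_ ?_
        · push_cast
          have : (((2 * m).choose 2 : ℕ) : ℝ) ≤ ((2 * m : ℕ) : ℝ) ^ 2 / (2 : ℕ).factorial :=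
            Nat.choose_le_pow_div 2 (2 * m)
          have e : ((2 * m : ℕ) : ℝ) ^ 2 / (2 : ℕ).factorial = 2 * m ^ 2 := by
            simp [Nat.factorial]; ring
          rw [e] at this
          gcongr
        · rw [mul_one_div, ← mul_div_assoc, div_le_iff₀ hq]; exact h
      · rw [if_neg hm, mul_zero]
        split_ifs <;> positivity
    refine (sum_le_sum b2).trans_lt ?_
    rw [sum_add_distrib, ← mul_sum, sum_ite_eq']
    have := sum_geometric_two_le ((univ : Finset (Fin n)).card + 1)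
    split_ifs <;> linarith

lemma ratio (n j w : ℕ) (hn : (j + 2) ^ 2 ≤ n) (hw : (j + 2) * w ≤ n) :
    (n : ℝ) ^ 2 * (n + w).choose j ≤ 36 * (j + 2) ^ 2 * n.choose (j + 2) := by
  have hn' : ((j : ℝ) + 2) ^ 2 ≤ n := by exact_mod_cast hn
  have hw' : ((j : ℝ) + 2) * w ≤ n := by exact_mod_cast hw
  have hj : (0 : ℝ) ≤ j := by positivity
  obtain ⟨u, hu⟩ : ∃ u, n + 1 = u + (j + 2) := ⟨n + 1 - (j + 2), by nlinarith [Nat.sub_add_cancel (show j + 2 ≤ n + 1 by nlinarith)]⟩
  have hu' : (n : ℝ) + 1 = u + (j + 2) := by exact_mod_cast hu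
  have h1 : ((n + 1 - (j + 2) : ℕ) : ℝ) ^ (j + 2) / (j + 2).factorial ≤ n.choose (j + 2) :=
    Nat.pow_le_choose (j + 2) n
  rw [show n + 1 - (j + 2) = u by omega] at h1
  have h2 : ((n + w).choose j : ℝ) ≤ ((n + w : ℕ) : ℝ) ^ j / j.factorial :=
    Nat.choose_le_pow_div j (n + w)
  have h3 : (n : ℝ) ≤ 2 * u := by nlinarith
  have hu0 : (0 : ℝ) ≤ u := by positivity
  have h4 : ((n + w : ℕ) : ℝ) ≤ (1 + 2 / (j + 1)) * u := by
    have e : (1 + 2 / ((j : ℝ) + 1)) * u = (j + 3) * u / (j + 1) := by field_simp; ring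
    rw [e, le_div_iff₀ (by positivity)]
    push_cast
    have : ((j : ℝ) + 2) * ((n + w) * (j + 1)) ≤ (j + 2) * ((j + 3) * u) := by
      have b1 : ((j : ℝ) + 2) * (n + w) ≤ (j + 3) * n := by nlinarith
      have b2 : ((j : ℝ) + 1) * n ≤ (j + 2) * u := by nlinarith
      nlinarith [mul_le_mul_of_nonneg_left b1 (by positivity : (0 : ℝ) ≤ j + 1),
        mul_le_mul_of_nonneg_left b2 (by positivity : (0 : ℝ) ≤ j + 3)]
    exact le_of_mul_le_mul_left this (by positivity)
  have h5 : (1 + 2 / ((j : ℝ) + 1)) ^ j ≤ 9 := by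
    have b1 : 1 + 2 / ((j : ℝ) + 1) ≤ Real.exp (2 / (j + 1)) := by
      linarith [Real.add_one_le_exp (2 / ((j : ℝ) + 1))]
    refine (pow_le_pow_left₀ (by positivity) b1 j).trans ?_
    rw [← Real.exp_nat_mul]
    have b2 : (j : ℝ) * (2 / (j + 1)) ≤ 1 + 1 := by
      rw [← mul_div_assoc, div_le_iff₀ (by positivity)]; linarith
    refine (Real.exp_le_exp.2 b2).trans ?_
    rw [Real.exp_add]
    nlinarith [Real.exp_one_lt_d9, Real.exp_pos 1]
  have h6 : ((n + w : ℕ) : ℝ) ^ j ≤ 9 * (u : ℝ) ^ j := by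
    refine (pow_le_pow_left₀ (by positivity) h4 j).trans ?_
    rw [mul_pow]; gcongr
  have h7 : ((j + 2).factorial : ℝ) = (j + 2) * ((j + 1) * j.factorial) := by
    rw [Nat.factorial_succ, Nat.factorial_succ]; push_cast; ring
  have hf : (0 : ℝ) < j.factorial := by positivity
  calc (n : ℝ) ^ 2 * (n + w).choose j ≤ (2 * u) ^ 2 * (9 * (u : ℝ) ^ j / j.factorial) := by
        gcongr
        exact h2.trans (by gcongr)
    _ = 36 * ((j + 2) * (j + 1)) * ((u : ℝ) ^ (j + 2) / (j + 2).factorial) := by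
        rw [h7]; field_simp; ring
    _ ≤ _ := by
        gcongr
        nlinarith

theorem result (n k q : ℕ) (hk : 2 ≤ k) (hn : k ^ 2 ≤ n)
    (h : 32000 * k ^ 3 * n.choose k ≤ (q + 1) * n) : ClientWins q (board n k) ∅ := by
  obtain ⟨j, rfl⟩ : ∃ j, k = j + 2 := ⟨k - 2, by omega⟩
  have h0 : 2 * (j + 2) ≤ n := by nlinarith
  obtain ⟨s, hs⟩ : ∃ s, s = n / (2 * (j + 2)) := ⟨_, rfl⟩
  have h1 : 1 ≤ s := by rw [hs]; exact Nat.div_pos h0 (by omega)
  have h2 : s * (2 * (j + 2)) ≤ n := by rw [hs]; exact Nat.div_mul_le_self _ _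
  have h3 : n < (s + 1) * (2 * (j + 2)) := by
    rw [hs, mul_comm]; exact Nat.lt_mul_div_succ _ (by omega)
  refine main (j + 2) q s hk h1 (by nlinarith) ?_
  have h4 := ratio n j (2 * s) hn (by nlinarith)
  have h5 : (n : ℝ) ≤ 4 * (j + 2) * s := by
    have : n ≤ 4 * (j + 2) * s := by nlinarith
    exact_mod_cast this
  have h6 : (32000 : ℝ) * (j + 2) ^ 3 * n.choose (j + 2) ≤ (q + 1) * n := by exact_mod_cast h
  rw [Nat.add_sub_cancel]
  have hj : (0 : ℝ) < (j : ℝ) + 2 := by positivity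
  have hC : (0 : ℝ) ≤ n.choose (j + 2) := by positivity
  have h7 : ((q : ℝ) + 1) * n ≤ (q + 1) * (4 * (j + 2) * s) := by gcongr
  have h8 : ((j : ℝ) + 2) * (8000 * (j + 2) ^ 2 * n.choose (j + 2)) ≤ (j + 2) * (s * (q + 1)) := by
    nlinarith
  have h9 := le_of_mul_le_mul_left h8 hj
  nlinarith [mul_nonneg (sq_nonneg ((j : ℝ) + 2)) hC]

end Pool.Agent.Results.MP_fefad7_co.WaiterClient
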